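import Mathlib
import Pool.Agent.H43.TreeSpace

set_option autoImplicit false

namespace Pool.Agent.Results.MP_e230d6_gt.HausdorffCounterexample

open Set Topology

/-- A set is saturated if it is an upper set for the specialization order, in which `x ≤ y` means
that `x` lies in the closure of `{y}`. -/
def Saturated {X : Type} [TopologicalSpace X] (K : Set X) : Prop :=
  ∀ x ∈ K, ∀ y, x ∈ closure {y} → y ∈ K

/-- The nonempty compact saturated subsets of `X`. -/
def KX (X : Type) [TopologicalSpace X] : Type :=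
  {K : Set X // K.Nonempty ∧ IsCompact K ∧ Saturated K}

/-- The order on the nonempty compact saturated subsets is reverse inclusion. -/
instance instPartialOrderKX (X : Type) [TopologicalSpace X] : PartialOrder (KX X) where
  le A B := B.1 ⊆ A.1
  le_refl _ := Subset.rfl
  le_trans _ _ _ h1 h2 := h2.trans h1
  le_antisymm _ _ h1 h2 := Subtype.ext (h2.antisymm h1)

/-- The upper Vietoris topology, generated by the sets of all `K` contained in an open set `U`. -/
def upperVietoris (X : Type) [TopologicalSpace X] : TopologicalSpace (KX X) :=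
  TopologicalSpace.generateFrom {V | ∃ U : Set X, IsOpen U ∧ V = {K : KX X | K.1 ⊆ U}}

/-- Well-filtered spaces: `T0`, and if the intersection of a filtered family of nonempty compact
saturated sets lies in an open set `U`, then some member of the family lies in `U`. -/
def WellFiltered (X : Type) [TopologicalSpace X] : Prop :=
  T0Space X ∧ ∀ F : Set (KX X), F.Nonempty → DirectedOn (· ≤ ·) F →
    ∀ U : Set X, IsOpen U → (⋂ K ∈ F, K.1) ⊆ U → ∃ K ∈ F, K.1 ⊆ U

theorem exists_box {X : Type} [TopologicalSpace X] (S : Set (KX X))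
    (h : IsOpen[upperVietoris X] S) (K : KX X) (hK : K ∈ S) :
    ∃ U : Set X, IsOpen U ∧ K.1 ⊆ U ∧ ∀ L : KX X, L.1 ⊆ U → L ∈ S := by
  induction h with
  | basic s hs =>
    obtain ⟨U, hU, rfl⟩ := hs
    exact ⟨U, hU, hK, fun L hL => hL⟩
  | univ => exact ⟨Set.univ, isOpen_univ, subset_univ _, fun _ _ => trivial⟩
  | inter s t _ _ ihs iht =>
    obtain ⟨U, hU, hKU, h1⟩ := ihs hK.1
    obtain ⟨V, hV, hKV, h2⟩ := iht hK.2
    exact ⟨U ∩ V, hU.inter hV, subset_inter hKU hKV, fun L hL =>
      ⟨h1 L (hL.trans inter_subset_left), h2 L (hL.trans inter_subset_right)⟩⟩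
  | sUnion S _ ih =>
    obtain ⟨s, hs, hKs⟩ := hK
    obtain ⟨U, hU, hKU, h1⟩ := ih s hs hKs
    exact ⟨U, hU, hKU, fun L hL => ⟨s, hs, h1 L hL⟩⟩

/-- In a T1 space every set is saturated. -/
theorem saturated_of_t1 {X : Type} [TopologicalSpace X] [T1Space X] (K : Set X) : Saturated K := by
  intro x hx y hxy
  rw [closure_singleton, mem_singleton_iff] at hxy
  rwa [← hxy]

/-- A Hausdorff space is well-filtered. -/
theorem wellFiltered_of_t2 (X : Type) [TopologicalSpace X] [T2Space X] : WellFiltered X := by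
  refine ⟨inferInstance, ?_⟩
  intro F hne hdir U hU hsub
  haveI : Nonempty F := hne.to_subtype
  have hdir' : Directed (fun A B : Set X => A ⊇ B) (fun K : F => (K.1.1 : Set X)) := by
    rintro ⟨A, hA⟩ ⟨B, hB⟩
    obtain ⟨C, hC, h1, h2⟩ := hdir A hA B hB
    exact ⟨⟨C, hC⟩, h1, h2⟩
  obtain ⟨K, hKU⟩ := exists_subset_nhds_of_isCompact' hdir' (fun K => K.1.2.2.1)
    (fun K => K.1.2.2.1.isClosed) (U := U) (by
      intro x hx
      apply hU.mem_nhds
      apply hsub
      rw [mem_iInter₂]
      intro K hK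
      exact mem_iInter.1 hx ⟨K, hK⟩)
  exact ⟨K.1, K.2, hKU⟩

open Pool.Agent.H43 in
theorem result : ∃ (X : Type) (_ : TopologicalSpace X), T2Space X ∧ FirstCountableTopology X ∧
    WellFiltered X ∧ upperVietoris X ≠ Topology.scott (KX X) Set.univ := by
  refine ⟨TreeSpace.X, inferInstance, inferInstance, inferInstance, wellFiltered_of_t2 _, ?_⟩
  intro heq
  let S : Set (KX TreeSpace.X) :=
    {K | ¬ ∃ (k : ℕ) (T : Finset (Fin k → Bool)), 2 * T.card ≤ k ∧ TreeSpace.M k T ⊆ K.1}
  have hopen : IsOpen[Topology.scott (KX TreeSpace.X) Set.univ] S := by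
    letI : TopologicalSpace (KX TreeSpace.X) := Topology.scott (KX TreeSpace.X) Set.univ
    haveI : Topology.IsScott (KX TreeSpace.X) Set.univ := ⟨rfl⟩
    rw [Topology.IsScott.isOpen_iff_isUpperSet_and_dirSupInaccOn (D := Set.univ)]
    constructor
    · intro K L hKL hK hL
      obtain ⟨k, T, hT, hM⟩ := hL
      exact hK ⟨k, T, hT, hM.trans hKL⟩
    · intro D _ hne hdir L hLub hL
      by_contra hcon
      have hcon' : ∀ K ∈ D, ∃ (k : ℕ) (T : Finset (Fin k → Bool)), 2 * T.card ≤ k ∧
          TreeSpace.M k T ⊆ K.1 := by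
        intro K hK
        by_contra h2
        exact hcon ⟨K, hK, h2⟩
      obtain ⟨C, hC⟩ := hne
      have hfin : {p : (k : ℕ) × Finset (Fin k → Bool) | 2 * p.2.card ≤ p.1 ∧
          TreeSpace.M p.1 p.2 ⊆ C.1}.Finite := by
        have h1 := TreeSpace.finite_levels C.2.2.1
        have h2 : {p : (k : ℕ) × Finset (Fin k → Bool) | 2 * p.2.card ≤ p.1 ∧
          TreeSpace.M p.1 p.2 ⊆ C.1} ⊆
            ⋃ k ∈ {k : ℕ | ∃ T : Finset (Fin k → Bool), 2 * T.card ≤ k ∧
              TreeSpace.M k T ⊆ C.1},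
              Set.range (fun T : Finset (Fin k → Bool) =>
                (⟨k, T⟩ : (k : ℕ) × Finset (Fin k → Bool))) := by
          rintro ⟨k, T⟩ hp
          simp only [Set.mem_iUnion]
          exact ⟨k, ⟨T, hp.1, hp.2⟩, T, rfl⟩
        exact (h1.biUnion (fun k _ => Set.finite_range _)).subset h2
      have hall : ∃ p : (k : ℕ) × Finset (Fin k → Bool), 2 * p.2.card ≤ p.1 ∧
          ∀ K ∈ D, TreeSpace.M p.1 p.2 ⊆ K.1 := by
        by_contra hno
        push Not at hno
        have key : ∀ F : Finset ((k : ℕ) × Finset (Fin k → Bool)),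
            ∃ B ∈ D, B.1 ⊆ C.1 ∧ ∀ p ∈ F, 2 * p.2.card ≤ p.1 →
              ¬ TreeSpace.M p.1 p.2 ⊆ B.1 := by
          classical
          intro F
          induction F using Finset.induction_on with
          | empty => exact ⟨C, hC, subset_rfl, by simp⟩
          | insert p F _ ih =>
            obtain ⟨B, hB, hBC, hBF⟩ := ih
            by_cases hp : 2 * p.2.card ≤ p.1
            · obtain ⟨E, hE, hEp⟩ := hno p hp
              obtain ⟨B', hB', h1, h2⟩ := hdir B hB E hE
              refine ⟨B', hB', (show B'.1 ⊆ B.1 from h1).trans hBC, ?_⟩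
              intro q hq hq'
              rw [Finset.mem_insert] at hq
              rcases hq with rfl | hq
              · exact fun h3 => hEp (h3.trans (show B'.1 ⊆ E.1 from h2))
              · exact fun h3 => hBF q hq hq' (h3.trans (show B'.1 ⊆ B.1 from h1))
            · refine ⟨B, hB, hBC, ?_⟩
              intro q hq hq'
              rw [Finset.mem_insert] at hq
              rcases hq with rfl | hq
              · exact absurd hq' hp
              · exact hBF q hq hq'
        obtain ⟨B, hB, hBC, hBF⟩ := key hfin.toFinset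
        obtain ⟨k, T, hT, hMT⟩ := hcon' B hB
        exact hBF ⟨k, T⟩ (by
          rw [Set.Finite.mem_toFinset]
          exact ⟨hT, hMT.trans hBC⟩) hT hMT
      obtain ⟨p, hp, hpall⟩ := hall
      have hub : (⟨TreeSpace.M p.1 p.2, TreeSpace.nonempty_M hp,
          (TreeSpace.finite_M p.1 p.2).isCompact, saturated_of_t1 _⟩ : KX TreeSpace.X) ∈
          upperBounds D := fun K hK => hpall K hK
      exact hL ⟨p.1, p.2, hp, hLub.2 hub⟩
  rw [← heq] at hopen
  let K0 : KX TreeSpace.X :=
    ⟨Set.range TreeSpace.br, Set.range_nonempty _, TreeSpace.isCompact_range_br, saturated_of_t1 _⟩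
  have hK0 : K0 ∈ S := by
    rintro ⟨k, T, hT, hM⟩
    obtain ⟨z, hz⟩ := TreeSpace.nonempty_M hT
    obtain ⟨s, hs, rfl⟩ := hz
    obtain ⟨x, hx⟩ := hM (TreeSpace.nd_mem_M.2 hs)
    exact TreeSpace.nd_ne_br _ _ hx.symm
  obtain ⟨U, hU, hKU, hbox⟩ := exists_box S hopen K0 hK0
  obtain ⟨k, T, hT, hM⟩ := TreeSpace.exists_M_subset hU hKU
  exact hbox ⟨TreeSpace.M k T, TreeSpace.nonempty_M hT,
    (TreeSpace.finite_M k T).isCompact, saturated_of_t1 _⟩ hM ⟨k, T, hT, subset_rfl⟩

end Pool.Agent.Results.MP_e230d6_gt.HausdorffCounterexample
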